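import Pool.Agent.H261R3.LN.SStmts

set_option autoImplicit false

open scoped NNReal

namespace Pool.Agent.H261R3.LN.HLof750

open Pool.Agent.H261R3.LH (Lip1 IsLNR clip clip_nonneg)
open Pool.Agent.H261R3.LN

theorem one_add_sq_le_cosh {a : ℝ} (ha : 0 ≤ a) : 1 + a ^ 2 / 2 ≤ Real.cosh a := by
  have h1 : Real.cosh a = Real.cosh (2 * (a / 2)) := by congr 1; ring
  rw [h1, Real.cosh_two_mul, Real.cosh_sq]
  have h2 : a / 2 ≤ Real.sinh (a / 2) := Real.self_le_sinh_iff.2 (by positivity)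
  have h3 : (a / 2) ^ 2 ≤ Real.sinh (a / 2) ^ 2 := by
    gcongr
  linarith

theorem hdist_le_of_cosh {m : ℕ} (z w : Hyp m) {a : ℝ} (ha : 0 ≤ a)
    (h : 1 + (‖z.x - w.x‖ ^ 2 + (z.y - w.y) ^ 2) / (2 * z.y * w.y) ≤ Real.cosh a) :
    hdist z w ≤ a := by
  have hz := z.pos
  have hw := w.pos
  unfold hdist
  have h3 : 0 ≤ (‖z.x - w.x‖ ^ 2 + (z.y - w.y) ^ 2) / (2 * z.y * w.y) := by positivity
  have h4 := (Real.arcosh_le_arcosh (by linarith) (Real.cosh_pos a)).2 h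
  rwa [Real.arcosh_cosh ha] at h4

theorem hdist_le {m : ℕ} (z w : Hyp m) {a : ℝ} (ha : 0 ≤ a)
    (h : ‖z.x - w.x‖ ^ 2 + (z.y - w.y) ^ 2 ≤ a ^ 2 * (z.y * w.y)) : hdist z w ≤ a := by
  have hz := z.pos
  have hw := w.pos
  have hzw : 0 < z.y * w.y := by positivity
  refine hdist_le_of_cosh z w ha (le_trans ?_ (one_add_sq_le_cosh ha))
  have h2 : (‖z.x - w.x‖ ^ 2 + (z.y - w.y) ^ 2) / (2 * z.y * w.y) ≤ a ^ 2 / 2 := by
    rw [div_le_div_iff₀ (by positivity) (by norm_num)]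
    linarith
  linarith

/-- Horizontal distances. -/
theorem hor {m : ℕ} (z w : Hyp m) (D : ℝ) (hD : 0 ≤ D) (hy : z.y = w.y)
    (h : ∀ i, |z.x i - w.x i| ≤ D) : hdist z w ≤ (m + 1) * (D / z.y) := by
  have hz := z.pos
  refine hdist_le z w (by positivity) ?_
  rw [← hy, sub_self, EuclideanSpace.real_norm_sq_eq]
  have h1 : ∀ i : Fin m, ((z.x - w.x) i) ^ 2 ≤ D ^ 2 := by
    intro i
    show (z.x i - w.x i) ^ 2 ≤ D ^ 2
    rw [← sq_abs (z.x i - w.x i)]
    exact pow_le_pow_left₀ (abs_nonneg _) (h i) 2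
  have h5 := Finset.sum_le_card_nsmul Finset.univ _ _ (fun i _ => h1 i)
  rw [Finset.card_univ, Fintype.card_fin, nsmul_eq_mul] at h5
  have h7 : (m : ℝ) ≤ ((m : ℝ) + 1) ^ 2 := by
    have : (0 : ℝ) ≤ m := by positivity
    nlinarith
  calc _ ≤ (m : ℝ) * D ^ 2 + 0 ^ 2 := by gcongr
    _ = (m : ℝ) * D ^ 2 := by ring
    _ ≤ ((m : ℝ) + 1) ^ 2 * D ^ 2 := by gcongr
    _ = _ := by field_simp

/-- Vertical distances. -/
theorem ver {m : ℕ} (z w : Hyp m) (a b : ℝ) (hx : z.x = w.x) (hz : z.y = 2 ^ a)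
    (hw : w.y = 2 ^ b) : hdist z w ≤ |a - b| * Real.log 2 := by
  have hlog : 0 ≤ Real.log 2 := Real.log_nonneg (by norm_num)
  refine hdist_le_of_cosh z w (by positivity) ?_
  rw [hx, sub_self, norm_zero, hz, hw]
  have h1 : Real.cosh (|a - b| * Real.log 2) = Real.cosh ((a - b) * Real.log 2) := by
    rw [← Real.cosh_abs ((a - b) * Real.log 2), abs_mul, abs_of_nonneg hlog]
  rw [h1, Real.cosh_eq]
  have e1 : Real.exp ((a - b) * Real.log 2) = 2 ^ a / 2 ^ b := by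
    rw [mul_comm, ← Real.rpow_def_of_pos (by norm_num), Real.rpow_sub (by norm_num)]
  have e2 : Real.exp (-((a - b) * Real.log 2)) = 2 ^ b / 2 ^ a := by
    rw [← neg_mul, neg_sub, mul_comm, ← Real.rpow_def_of_pos (by norm_num),
      Real.rpow_sub (by norm_num)]
  rw [e1, e2]
  have p1 : (0 : ℝ) < 2 ^ a := by positivity
  have p2 : (0 : ℝ) < 2 ^ b := by positivity
  apply le_of_eq
  field_simp
  ring

theorem ver' {m : ℕ} (z w : Hyp m) (a b : ℝ) (hx : z.x = w.x) (hz : z.y = 2 ^ a)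
    (hw : w.y = 2 ^ b) : hdist z w ≤ |a - b| := by
  refine (ver z w a b hx hz hw).trans ?_
  have : Real.log 2 ≤ 1 := by linarith [Real.log_two_lt_d9]
  exact mul_le_of_le_one_right (abs_nonneg _) this

theorem taskHLof : TaskHLof := by
  intro m
  refine ⟨m + 1, by positivity, fun S _ F hF => ⟨fun η x x' => ?_, fun x η η' => ?_⟩⟩
  · refine (hF _ _).trans ((hor (hpt x η) (hpt x' η) (dist x x') dist_nonneg rfl ?_).trans ?_)
    · intro i
      exact dist_le_pi_dist x x' i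
    · apply le_of_eq
      show ((m : ℝ) + 1) * (dist x x' / (2 : ℝ) ^ η) = (m + 1) * (2 : ℝ) ^ (-η) * dist x x'
      rw [Real.rpow_neg (by norm_num)]
      field_simp
  · refine (hF _ _).trans ((ver' (hpt x η) (hpt x η') η η' rfl rfl rfl).trans ?_)
    have h1 : (0 : ℝ) ≤ m := by positivity
    have h2 := abs_nonneg (η - η')
    nlinarith

end Pool.Agent.H261R3.LN.HLof750
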